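import Pool.Agent.Helper90.TS.Stmts

set_option autoImplicit false

/-! Module ACLB: algebraic closure, basic facts. -/

namespace Pool.Agent.Helper90.TS

variable {V G : Type} [Group G] [MulAction G V]

theorem aclb_subset (A : Set V) : A ⊆ acl G A := by
  intro a ha
  refine Set.Finite.subset (Set.finite_singleton a) ?_
  rintro _ ⟨g, hg, rfl⟩
  exact hg a ha

theorem aclb_mono {A B : Set V} (h : A ⊆ B) : acl G A ⊆ acl G B := by
  intro e he
  refine Set.Finite.subset he ?_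
  rintro _ ⟨g, hg, rfl⟩
  exact ⟨g, fx_anti h hg, rfl⟩

theorem aclb_tr_le (g : G) (A : Set V) : tr g (acl G A) ⊆ acl G (tr g A) := by
  rintro _ ⟨e, he, rfl⟩
  refine Set.Finite.subset (Set.Finite.image (fun x => g • x) he) ?_
  rintro _ ⟨k, hk, rfl⟩
  refine ⟨(g⁻¹ * k * g) • e, ⟨g⁻¹ * k * g, ?_, rfl⟩, ?_⟩
  · intro a ha
    rw [mul_smul, mul_smul, hk (g • a) ⟨a, ha, rfl⟩, inv_smul_smul]
  · simp only [mul_smul, smul_inv_smul]

theorem aclb_tr_tr (g k : G) (A : Set V) : tr g (tr k A) = tr (g * k) A := by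
  ext x
  rw [mem_tr, mem_tr, mem_tr, mul_inv_rev, mul_smul]

theorem aclb_tr_one (A : Set V) : tr (1 : G) A = A := by
  ext x
  rw [mem_tr, inv_one, one_smul]

theorem aclb_tr_mono (g : G) {A B : Set V} (h : A ⊆ B) : tr g A ⊆ tr g B := Set.image_mono h

theorem aclb_tr (g : G) (A : Set V) : acl G (tr g A) = tr g (acl G A) := by
  refine Set.Subset.antisymm ?_ (aclb_tr_le g A)
  have h1 : tr g (tr g⁻¹ (acl G (tr g A))) ⊆ tr g (acl G (tr g⁻¹ (tr g A))) :=
    aclb_tr_mono g (aclb_tr_le g⁻¹ (tr g A))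
  rw [aclb_tr_tr, aclb_tr_tr, mul_inv_cancel, inv_mul_cancel, aclb_tr_one, aclb_tr_one] at h1
  exact h1

theorem aclb_tuple (A : Set V) (κ : Type) [Finite κ] (e : κ → V) (he : Set.range e ⊆ acl G A) :
    {e' | ∃ g ∈ Fx G A, g • e = e'}.Finite := by
  have h1 : (Set.pi Set.univ fun i : κ => {e' | ∃ g ∈ Fx G A, g • e i = e'}).Finite :=
    Set.Finite.pi fun i => he ⟨i, rfl⟩
  refine Set.Finite.subset h1 ?_
  rintro _ ⟨g, hg, rfl⟩ i _
  exact ⟨g, hg, rfl⟩

theorem aclb_orb_ov (X : Ctx V G) (A : Set V) {e : V} (he : e ∈ acl G A) :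
    X.Ov A {x : Unit → V | x () ∈ {e' | ∃ g ∈ Fx G A, g • e = e'}} ∧
      {x : Unit → V | x () ∈ {e' | ∃ g ∈ Fx G A, g • e = e'}}.Finite := by
  have hf : {x : Unit → V | x () ∈ {e' | ∃ g ∈ Fx G A, g • e = e'}}.Finite := by
    have h1 : Function.Injective (fun x : Unit → V => x ()) := by
      intro x y hxy
      ext i
      exact hxy
    exact Set.Finite.preimage (h1.injOn) he
  refine ⟨⟨ov_finite hf, ?_⟩, hf⟩
  rintro g hg x ⟨k, hk, hx⟩
  refine ⟨g * k, mul_mem hg hk, ?_⟩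
  rw [mul_smul, hx]
  rfl

theorem aclb_countable (hC : ST_COV) (X : Ctx V G) (A : Set V) (hA : A.Countable) :
    (acl G A).Countable := by
  have h1 : {D : Set (Unit → V) | X.Ov A D}.Countable := hC V G X A hA Unit
  have h2 : {D : Set (Unit → V) | X.Ov A D ∧ D.Finite}.Countable := h1.mono fun D hD => hD.1
  have h3 : (⋃ D ∈ {D : Set (Unit → V) | X.Ov A D ∧ D.Finite},
      (fun x : Unit → V => x ()) '' D).Countable := by
    refine Set.Countable.biUnion h2 fun D hD => ?_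
    exact hD.2.countable.image _
  refine h3.mono ?_
  intro e he
  obtain ⟨h4, h5⟩ := aclb_orb_ov X A he
  simp only [Set.mem_iUnion]
  refine ⟨_, ⟨h4, h5⟩, fun _ => e, ?_, rfl⟩
  exact ⟨1, one_mem _, one_smul _ _⟩

/-- if `g` restricted to `range e` determines the translate of `D`, there are finitely many -/
theorem aclb_finite_translates (A : Set V) {κ : Type} [Finite κ] (e : κ → V)
    (he : Set.range e ⊆ acl G A) {T : Type} (F : G → T)
    (hF : ∀ g ∈ Fx G A, ∀ k ∈ Fx G A, g • e = k • e → F g = F k) :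
    {t | ∃ g ∈ Fx G A, F g = t}.Finite := by
  classical
  have h1 := aclb_tuple A κ e he
  let Φ : (κ → V) → T := fun e' => if h : ∃ g ∈ Fx G A, g • e = e' then F h.choose else F 1
  refine Set.Finite.subset (h1.image Φ) ?_
  rintro _ ⟨g, hg, rfl⟩
  refine ⟨g • e, ⟨g, hg, rfl⟩, ?_⟩
  have h : ∃ k ∈ Fx G A, k • e = g • e := ⟨g, hg, rfl⟩
  have h2 : Φ (g • e) = F h.choose := dif_pos h
  rw [h2]
  exact hF _ h.choose_spec.1 g hg h.choose_spec.2

theorem aclb_acl_acl (hC : ST_COV) (hS : ST_FSUP) (X : Ctx V G) (A : Set V) (hA : A.Countable) :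
    acl G (acl G A) = acl G A := by
  refine Set.Subset.antisymm ?_ (aclb_subset _)
  intro e he
  obtain ⟨h4, h5⟩ := aclb_orb_ov X (acl G A) he
  obtain ⟨m, a, E, ha, hE, hD⟩ := hS V G X (acl G A) (aclb_countable hC X A hA) Unit _ h4
  -- the orbit under the stabilizer of `a` is finite
  have h6 : {e' | ∃ g ∈ Fx G (Set.range a), g • e = e'}.Finite := by
    refine Set.Finite.subset (h5.image fun x => x ()) ?_
    rintro _ ⟨g, hg, rfl⟩
    refine ⟨fun _ => g • e, ?_, rfl⟩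
    have h7 : (fun _ => e : Unit → V) ∈
        {x : Unit → V | x () ∈ {e' | ∃ g ∈ Fx G (acl G A), g • e = e'}} :=
      ⟨1, one_mem _, one_smul _ _⟩
    rw [hD] at h7 ⊢
    have h8 := ((ov_empty_iff X).1 hE).2 g (Subgroup.mem_top g) _ h7
    rw [smul_elim, fx_range.1 hg] at h8
    exact h8
  have h9 : {t : Set V | ∃ g ∈ Fx G A,
      tr g {e' | ∃ g ∈ Fx G (Set.range a), g • e = e'} = t}.Finite := by
    refine aclb_finite_translates A a ha
      (fun g => tr g {e' | ∃ g ∈ Fx G (Set.range a), g • e = e'}) ?_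
    intro g _ k _ hgk
    have key : ∀ g k : G, g • a = k • a →
        tr g {e' | ∃ g ∈ Fx G (Set.range a), g • e = e'} ⊆
          tr k {e' | ∃ g ∈ Fx G (Set.range a), g • e = e'} := by
      rintro g k hgk _ ⟨_, ⟨l, hl, rfl⟩, rfl⟩
      rw [mem_tr]
      refine ⟨k⁻¹ * g * l, ?_, ?_⟩
      · rw [fx_range]
        rw [mul_smul, mul_smul, fx_range.1 hl, hgk, inv_smul_smul]
      · rw [mul_smul, mul_smul]
    exact Set.Subset.antisymm (key g k hgk) (key k g hgk.symm)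
  have h10 : (⋃ t ∈ {t : Set V | ∃ g ∈ Fx G A,
      tr g {e' | ∃ g ∈ Fx G (Set.range a), g • e = e'} = t}, t).Finite := by
    refine Set.Finite.biUnion h9 ?_
    rintro _ ⟨g, _, rfl⟩
    exact h6.image _
  refine Set.Finite.subset h10 ?_
  rintro _ ⟨g, hg, rfl⟩
  simp only [Set.mem_iUnion]
  refine ⟨_, ⟨g, hg, rfl⟩, ⟨e, ⟨1, one_mem _, one_smul _ _⟩, rfl⟩⟩

theorem aclb_rank (hC : ST_COV) (hU : ST_RUN) (hR : ST_RBAS) (hB : ST_RKB) (hL : ST_RKL)
    (X : Ctx V G) (A : Set V) (hA : A.Countable)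
    (E : Set V) (ι : Type) [Finite ι] (b : ι → V) (hE : E ⊆ acl G A) :
    X.rk (A ∪ E) b = X.rk A b := by
  obtain ⟨b1, b2, b3, b4, b5, b6⟩ := hB V G X ι b
  refine le_antisymm (b4 A (A ∪ E) Set.subset_union_left) ?_
  by_contra hlt
  rw [not_le] at hlt
  have hEc : E.Countable := (aclb_countable hC X A hA).mono hE
  obtain ⟨A1, hA1, hA1f, hrk⟩ := hL V G X (A ∪ E) (hA.union hEc) ι b
  set E0 : Set V := A1 ∩ E with hE0
  have hE0f : E0.Finite := hA1f.subset Set.inter_subset_left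
  have hsub : A1 ⊆ A ∪ E0 := by
    intro x hx
    rcases hA1 hx with h | h
    · exact Or.inl h
    · exact Or.inr ⟨hx, h⟩
  have hlt2 : X.rk (A ∪ E0) b < X.rk A b := by
    refine lt_of_le_of_lt (b4 _ _ hsub) ?_
    rw [hrk]
    exact hlt
  obtain ⟨D, hD, hbD, hDr⟩ := b1 (A ∪ E0)
  have hDn : ¬ X.Rge (Order.succ (X.rk (A ∪ E0) b)) D := by
    rw [hDr]
    exact not_le.2 (Order.lt_succ _)
  haveI : Finite E0 := hE0f
  let e : E0 → V := fun x => x.1
  have he : Set.range e ⊆ acl G A := by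
    rintro _ ⟨x, rfl⟩
    exact hE x.2.2
  have hfin : {t : Set (ι → V) | ∃ g ∈ Fx G A, {x | g⁻¹ • x ∈ D} = t}.Finite := by
    refine aclb_finite_translates A e he (fun g => {x | g⁻¹ • x ∈ D}) ?_
    have key : ∀ g ∈ Fx G A, ∀ k ∈ Fx G A, g • e = k • e →
        {x : ι → V | g⁻¹ • x ∈ D} ⊆ {x | k⁻¹ • x ∈ D} := by
      intro g hg k hk hgk x hx
      have h1 : k⁻¹ * g ∈ Fx G (A ∪ E0) := by
        rw [fx_union]
        refine ⟨mul_mem (inv_mem hk) hg, ?_⟩
        intro y hy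
        have := congrFun hgk ⟨y, hy⟩
        have h2 : g • y = k • y := this
        rw [mul_smul, h2, inv_smul_smul]
      have h3 := hD.2 _ h1 _ hx
      rw [mul_smul, smul_inv_smul] at h3
      exact h3
    intro g hg k hk hgk
    exact Set.Subset.antisymm (key g hg k hk hgk) (key k hk g hg hgk.symm)
  haveI : Finite {t : Set (ι → V) | ∃ g ∈ Fx G A, {x | g⁻¹ • x ∈ D} = t} := hfin
  let F : {t : Set (ι → V) | ∃ g ∈ Fx G A, {x | g⁻¹ • x ∈ D} = t} → Set (ι → V) := fun t => t.1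
  have hFD : ∀ j, F j ∈ X.Df ι := by
    rintro ⟨_, g, hg, rfl⟩
    exact X.smul ι D hD.1 g⁻¹
  have hFU : (⋃ j, F j) ∈ X.Df ι := by
    have := ov_iUnion (X := X) (A := (Set.univ : Set V)) (F := F)
      (fun j => (ov_univ_iff X).2 (hFD j))
    exact this.1
  have hOv : X.Ov A (⋃ j, F j) := by
    refine ⟨hFU, ?_⟩
    intro k hk x hx
    rw [Set.mem_iUnion] at hx ⊢
    obtain ⟨⟨_, g, hg, rfl⟩, hx⟩ := hx
    refine ⟨⟨_, k * g, mul_mem hk hg, rfl⟩, ?_⟩
    change (k * g)⁻¹ • k • x ∈ D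
    rw [mul_inv_rev, mul_smul, inv_smul_smul]
    exact hx
  have hb : b ∈ ⋃ j, F j := by
    rw [Set.mem_iUnion]
    refine ⟨⟨_, 1, one_mem _, rfl⟩, ?_⟩
    change (1 : G)⁻¹ • b ∈ D
    rw [inv_one, one_smul]
    exact hbD
  have hnr : ¬ X.Rge (Order.succ (X.rk (A ∪ E0) b)) (⋃ j, F j) := by
    intro h
    obtain ⟨⟨_, g, hg, rfl⟩, h2⟩ := (hU V G X ι _).2 _ F hFD h
    exact hDn (((hR V G X ι).2.2.1 _ D g⁻¹).1 h2)
  exact absurd (b2 A _ _ hOv hb hnr) (not_le.2 hlt2)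

theorem st_ACLB (hS : ST_FSUP) (hC : ST_COV) (hU : ST_RUN) (hR : ST_RBAS) (hB : ST_RKB)
    (hL : ST_RKL) : ST_ACLB := by
  intro V G _ _ X A hA
  exact ⟨aclb_subset A, aclb_countable hC X A hA, fun B h => aclb_mono h, fun g => aclb_tr g A,
    aclb_acl_acl hC hS X A hA, fun E ι _ b hE => aclb_rank hC hU hR hB hL X A hA E ι b hE,
    fun κ _ e he => aclb_tuple A κ e he⟩

end Pool.Agent.Helper90.TS
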