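import Pool.Agent.Helper90.TS.Stmts

set_option autoImplicit false

/-! Module CALC: the calculus of independence. -/

namespace Pool.Agent.Helper90.TS

variable {V G : Type} [Group G] [MulAction G V]

theorem calc_sand (hB : ST_RKB) (X : Ctx V G) {A C D : Set V} {ι : Type} [Finite ι] {b : ι → V}
    (h1 : A ⊆ C) (h2 : C ⊆ D) (h : X.rk D b = X.rk A b) : X.rk C b = X.rk A b := by
  obtain ⟨b1, b2, b3, b4, b5, b6⟩ := hB V G X ι b
  refine le_antisymm (b4 _ _ h1) ?_
  rw [← h]
  exact b4 _ _ h2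

theorem calc_fc (hB : ST_RKB) (hL : ST_RKL) (X : Ctx V G) {A C : Set V} (hA : A.Countable)
    (hC : C.Countable) {ι : Type} [Finite ι] {b : ι → V}
    (h : ∀ (n : ℕ) (c : Fin n → V), Set.range c ⊆ C → X.rk (A ∪ Set.range c) b = X.rk A b) :
    X.rk (A ∪ C) b = X.rk A b := by
  obtain ⟨b1, b2, b3, b4, b5, b6⟩ := hB V G X ι b
  refine le_antisymm (b4 _ _ Set.subset_union_left) ?_
  obtain ⟨A1, hA1, hA1f, hrk⟩ := hL V G X (A ∪ C) (hA.union hC) ι b
  have hf : (A1 ∩ C).Finite := hA1f.subset Set.inter_subset_left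
  obtain ⟨n, c, hc⟩ := hf.fin_embedding
  have h1 := h n c (by rw [hc]; exact Set.inter_subset_right)
  rw [← h1, ← hrk]
  refine b4 _ _ ?_
  intro x hx
  rcases hA1 hx with h2 | h2
  · exact Or.inl h2
  · refine Or.inr ?_
    rw [hc]
    exact ⟨hx, h2⟩

theorem calc_symm (hY : ST_SYM) (hB : ST_RKB) (hL : ST_RKL) (X : Ctx V G) {A B C : Set V}
    (hA : A.Countable) (hBc : B.Countable) (h : SI X A B C) : SI X A C B := by
  intro n c hc
  refine calc_fc hB hL X hA hBc ?_
  intro m b hb
  refine hY V G X A hA (Fin m) (Fin n) b c ?_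
  refine calc_sand hB X Set.subset_union_left (Set.union_subset_union_right A hc) ?_
  exact h m b hb

theorem calc_sub (hY : ST_SYM) (hB : ST_RKB) (hL : ST_RKL) (X : Ctx V G) {A C : Set V}
    (hA : A.Countable) (hC : C.Countable) {κ ι : Type} [Finite κ] [Finite ι] {b : κ → V}
    {b0 : ι → V} (hb : Set.range b0 ⊆ Set.range b) (h : X.rk (A ∪ C) b = X.rk A b) :
    X.rk (A ∪ C) b0 = X.rk A b0 := by
  refine calc_fc hB hL X hA hC ?_
  intro n c hc
  have h1 : X.rk (A ∪ Set.range c) b = X.rk A b :=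
    calc_sand hB X Set.subset_union_left (Set.union_subset_union_right A hc) h
  have h2 := hY V G X A hA κ (Fin n) b c h1
  have h3 : X.rk (A ∪ Set.range b0) c = X.rk A c :=
    calc_sand hB X Set.subset_union_left (Set.union_subset_union_right A hb) h2
  exact hY V G X A hA (Fin n) ι c b0 h3

theorem calc_two (hB : ST_RKB) (X : Ctx V G) (A B C D : Set V) :
    SI X A B (C ∪ D) ↔ SI X A B C ∧ SI X (A ∪ C) B D := by
  constructor
  · intro h
    refine ⟨fun n b hb => ?_, fun n b hb => ?_⟩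
    · refine calc_sand hB X Set.subset_union_left ?_ (h n b hb)
      exact Set.union_subset_union_right A Set.subset_union_left
    · have h1 : X.rk (A ∪ C) b = X.rk A b :=
        calc_sand hB X Set.subset_union_left
          (Set.union_subset_union_right A Set.subset_union_left) (h n b hb)
      rw [h1, Set.union_assoc]
      exact h n b hb
  · rintro ⟨h1, h2⟩ n b hb
    rw [← Set.union_assoc, h2 n b hb, h1 n b hb]

theorem calc_tr_le (hB : ST_RKB) (X : Ctx V G) {A B C : Set V} (g : G) (h : SI X A B C) :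
    SI X (tr g A) (tr g B) (tr g C) := by
  intro n b hb
  obtain ⟨b1, b2, b3, b4, b5, b6⟩ := hB V G X (Fin n) (g⁻¹ • b)
  have h1 := h n (g⁻¹ • b) (by
    rintro _ ⟨i, rfl⟩
    have := hb ⟨i, rfl⟩
    rw [mem_tr] at this
    exact this)
  have h2 := b5 (A ∪ C) g
  have h3 := b5 A g
  rw [smul_inv_smul] at h2 h3
  rw [← tr_union, h2, h3, h1]

theorem calc_tr_tr (g : G) (A : Set V) : tr g⁻¹ (tr g A) = A := by
  ext x
  rw [mem_tr, mem_tr, inv_inv, inv_smul_smul]

theorem st_CALC (hY : ST_SYM) (hL : ST_RKL) (hB : ST_RKB) : ST_CALC := by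
  intro V G _ _ X A B C D hA hBc hCc hDc
  refine ⟨?_, ?_, ?_, ?_, ?_, ?_⟩
  · exact calc_symm hY hB hL X hA hBc
  · exact calc_two hB X A B C D
  · constructor
    · intro h
      have h1 := calc_symm hY hB hL X hA (hBc.union hDc) h
      rw [calc_two hB] at h1
      exact ⟨calc_symm hY hB hL X hA hCc h1.1, calc_symm hY hB hL X (hA.union hBc) hCc h1.2⟩
    · rintro ⟨h1, h2⟩
      refine calc_symm hY hB hL X hA hCc ?_
      rw [calc_two hB]
      exact ⟨calc_symm hY hB hL X hA hBc h1, calc_symm hY hB hL X (hA.union hBc) hDc h2⟩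
  · intro h n b hb
    refine calc_fc hB hL X hA hCc ?_
    intro m c hc
    exact h (Set.range b) (Set.range c) hb hc (Set.finite_range b) (Set.finite_range c) n b
      (Set.Subset.refl _)
  · intro ι _ b
    constructor
    · intro h n b0 hb0
      exact calc_sub hY hB hL X hA hCc hb0 h
    · intro h
      obtain ⟨n, ⟨e⟩⟩ := Finite.exists_equiv_fin ι
      have h1 := h n (b ∘ e.symm) (by
        rintro _ ⟨i, rfl⟩
        exact ⟨e.symm i, rfl⟩)
      refine calc_sub hY hB hL X hA hCc ?_ h1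
      rintro _ ⟨i, rfl⟩
      exact ⟨e i, by simp⟩
  · intro g
    constructor
    · intro h
      have := calc_tr_le hB X g⁻¹ h
      rw [calc_tr_tr, calc_tr_tr, calc_tr_tr] at this
      exact this
    · exact calc_tr_le hB X g

end Pool.Agent.Helper90.TS
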